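import Mathlib
import Pool.Agent.MP_4388f3_co.Defs

section

/-! Counting functions by changing one coordinate. -/

namespace Pool.Agent.MP_4388f3_co

open Finset Function

open Classical in
/-- Number of elements of a finite type with a property. -/
noncomputable def cnt {α : Type} [Fintype α] (Φ : α → Prop) : ℕ := (Finset.univ.filter Φ).card

open Classical in
lemma cnt_eq_sum {α : Type} [Fintype α] (Φ : α → Prop) :
    cnt Φ = ∑ a, if Φ a then 1 else 0 := by
  unfold cnt
  rw [Finset.card_filter]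

lemma cnt_mono {α : Type} [Fintype α] {Φ Ψ : α → Prop} (h : ∀ a, Φ a → Ψ a) :
    cnt Φ ≤ cnt Ψ := by
  classical
  unfold cnt
  apply Finset.card_le_card
  intro a ha
  simp only [Finset.mem_filter, Finset.mem_univ, true_and] at ha ⊢
  exact h a ha

lemma cnt_le_card {α : Type} [Fintype α] (Φ : α → Prop) : cnt Φ ≤ Fintype.card α := by
  classical
  unfold cnt
  exact Finset.card_le_univ _

lemma cnt_true {α : Type} [Fintype α] {Φ : α → Prop} (h : ∀ a, Φ a) :
    cnt Φ = Fintype.card α := by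
  classical
  unfold cnt
  rw [Finset.filter_true_of_mem (fun a _ => h a)]
  simp

lemma one_le_cnt {α : Type} [Fintype α] {Φ : α → Prop} {a : α} (h : Φ a) : 1 ≤ cnt Φ := by
  classical
  unfold cnt
  exact Finset.card_pos.mpr ⟨a, by simpa using h⟩

lemma cnt_le_one {α : Type} [Fintype α] {Φ : α → Prop} (h : ∀ a b, Φ a → Φ b → a = b) :
    cnt Φ ≤ 1 := by
  classical
  unfold cnt
  rw [Finset.card_le_one]
  intro a ha b hb
  simp only [Finset.mem_filter, Finset.mem_univ, true_and] at ha hb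
  exact h a b ha hb

lemma cnt_false {α : Type} [Fintype α] {Φ : α → Prop} (h : ∀ a, ¬ Φ a) : cnt Φ = 0 := by
  classical
  unfold cnt
  rw [Finset.filter_false_of_mem (fun a _ => h a)]
  simp

lemma cnt_eq_natCard {α : Type} [Fintype α] (Φ : α → Prop) : cnt Φ = Nat.card {a // Φ a} := by
  classical
  unfold cnt
  rw [Nat.card_eq_fintype_card, Fintype.card_subtype]

lemma cnt_cover {α ι : Type} [Fintype α] {Φ Φ₀ : α → Prop} (s : Finset ι) (Ψ : ι → α → Prop)
    (h : ∀ a, Φ a → Φ₀ a ∨ ∃ i ∈ s, Ψ i a) : cnt Φ ≤ cnt Φ₀ + ∑ i ∈ s, cnt (Ψ i) := by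
  classical
  simp only [cnt_eq_sum]
  rw [Finset.sum_comm, ← Finset.sum_add_distrib]
  apply Finset.sum_le_sum
  intro a _
  by_cases ha : Φ a
  · rcases h a ha with h0 | ⟨i, hi, hia⟩
    · simp [ha, h0]
    · have : (if Ψ i a then 1 else 0 : ℕ) ≤ ∑ j ∈ s, if Ψ j a then 1 else 0 :=
        Finset.single_le_sum (f := fun j => (if Ψ j a then 1 else 0 : ℕ))
          (fun _ _ => Nat.zero_le _) hi
      rw [if_pos hia] at this
      rw [if_pos ha]
      omega
  · simp [ha]

variable {V X : Type} [Fintype V] [DecidableEq V] [Fintype X]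

lemma update_identity (v : V) (Ψ : (V → X) → Prop) :
    Fintype.card X * cnt Ψ = ∑ φ : V → X, cnt (fun y => Ψ (update φ v y)) := by
  classical
  let T : (V → X) × X → (V → X) × X := fun p => (update p.1 v p.2, p.1 v)
  have hT : Function.Involutive T := by
    rintro ⟨φ, y⟩
    simp [T]
  have h1 : ∑ p : (V → X) × X, (if Ψ p.1 then 1 else 0 : ℕ)
      = ∑ p : (V → X) × X, (if Ψ (T p).1 then 1 else 0 : ℕ) :=
    (Equiv.sum_comp hT.toPerm (fun p => (if Ψ p.1 then 1 else 0 : ℕ))).symm
  rw [Fintype.sum_prod_type, Fintype.sum_prod_type] at h1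
  simp only [cnt_eq_sum]
  rw [Finset.mul_sum]
  refine Eq.trans ?_ h1
  apply Finset.sum_congr rfl
  intro φ _
  by_cases hφ : Ψ φ <;> simp [hφ]

/-- Proportion of the functions `V → X` with a property. -/
noncomputable def dens (Φ : (V → X) → Prop) : ℝ :=
  (cnt Φ : ℝ) / (Fintype.card X : ℝ) ^ Fintype.card V

lemma dens_nonneg (Φ : (V → X) → Prop) : 0 ≤ dens Φ := by
  unfold dens; positivity

lemma dens_mono {Φ Ψ : (V → X) → Prop} (h : ∀ a, Φ a → Ψ a) : dens Φ ≤ dens Ψ := by
  unfold dens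
  gcongr
  exact cnt_mono h

lemma dens_true [Nonempty X] {Φ : (V → X) → Prop} (h : ∀ a, Φ a) : dens Φ = 1 := by
  unfold dens
  rw [cnt_true h, Fintype.card_fun]
  have : (0 : ℝ) < Fintype.card X := by exact_mod_cast Fintype.card_pos
  push_cast
  field_simp

lemma dens_le_one [Nonempty X] (Φ : (V → X) → Prop) : dens Φ ≤ 1 := by
  rw [← dens_true (V := V) (X := X) (Φ := fun _ => True) (fun _ => trivial)]
  exact dens_mono (fun _ _ => trivial)

lemma dens_cover {ι : Type} {Φ Φ₀ : (V → X) → Prop} (s : Finset ι) (Ψ : ι → (V → X) → Prop)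
    (h : ∀ a, Φ a → Φ₀ a ∨ ∃ i ∈ s, Ψ i a) : dens Φ ≤ dens Φ₀ + ∑ i ∈ s, dens (Ψ i) := by
  unfold dens
  rw [← Finset.sum_div, ← add_div]
  gcongr
  exact_mod_cast cnt_cover s Ψ h

lemma dens_low [Nonempty X] (v : V) {Φ Ψ : (V → X) → Prop} {r : ℕ}
    (h : ∀ φ, Φ φ → r ≤ cnt (fun y => Ψ (update φ v y))) :
    (r : ℝ) / Fintype.card X * dens Φ ≤ dens Ψ := by
  classical
  have hX : (0 : ℝ) < Fintype.card X := by exact_mod_cast Fintype.card_pos
  have key : r * cnt Φ ≤ Fintype.card X * cnt Ψ := by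
    rw [update_identity v Ψ, cnt_eq_sum Φ, Finset.mul_sum]
    apply Finset.sum_le_sum
    intro φ _
    by_cases hφ : Φ φ
    · simpa [hφ] using h φ hφ
    · simp [hφ]
  have key' : (r : ℝ) * cnt Φ ≤ Fintype.card X * cnt Ψ := by exact_mod_cast key
  unfold dens
  rw [← mul_div_assoc]
  gcongr
  rw [div_mul_eq_mul_div, div_le_iff₀ hX]
  linarith

lemma dens_up [Nonempty X] (v : V) {Φ Ψ : (V → X) → Prop} {r : ℕ}
    (h0 : ∀ φ y, Ψ (update φ v y) → Φ φ)
    (h : ∀ φ, Φ φ → cnt (fun y => Ψ (update φ v y)) ≤ r) :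
    dens Ψ ≤ (r : ℝ) / Fintype.card X * dens Φ := by
  classical
  have hX : (0 : ℝ) < Fintype.card X := by exact_mod_cast Fintype.card_pos
  have key : Fintype.card X * cnt Ψ ≤ r * cnt Φ := by
    rw [update_identity v Ψ, cnt_eq_sum Φ, Finset.mul_sum]
    apply Finset.sum_le_sum
    intro φ _
    by_cases hφ : Φ φ
    · simpa [hφ] using h φ hφ
    · rw [cnt_false (fun y hy => hφ (h0 φ y hy))]
      simp
  have key' : (Fintype.card X : ℝ) * cnt Ψ ≤ r * cnt Φ := by exact_mod_cast key
  unfold dens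
  rw [← mul_div_assoc]
  gcongr
  rw [div_mul_eq_mul_div, le_div_iff₀ hX]
  linarith

end Pool.Agent.MP_4388f3_co

end

section

/-! The target structures and the one-vertex counting steps. -/

set_option linter.unusedSectionVars false

namespace Pool.Agent.MP_4388f3_co

open Finset Function

/-- The properties of the incidence graph of a projective plane that the proof uses. -/
structure Geo where
  X : Type
  [fin : Fintype X]
  [ne : Nonempty X]
  side : X → Bool
  adj : X → X → Prop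
  N : ℕ
  D : ℕ
  symm : ∀ x y, adj x y → adj y x
  adj_side : ∀ x y, adj x y → side x ≠ side y
  card_X : Fintype.card X = 2 * N
  card_side : ∀ s, cnt (fun x => side x = s) = N
  card_adj : ∀ x, cnt (fun y => adj x y) = D
  uniq : ∀ x y z w, x ≠ y → adj x z → adj y z → adj x w → adj y w → z = w
  ex : ∀ x y, side x = side y → ∃ z, adj x z ∧ adj y z
  N_pos : 0 < N
  D_pos : 0 < D
  D_le : D ≤ N
  N_le : N ≤ D ^ 2
  sq_le : D ^ 2 ≤ 2 * N

attribute [instance] Geo.fin Geo.ne

/-- The edge density. -/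
noncomputable def Geo.x (G : Geo) : ℝ := (G.D : ℝ) / G.N

namespace Geo

variable (G : Geo)

lemma N_pos' : (0 : ℝ) < G.N := by exact_mod_cast G.N_pos
lemma D_pos' : (0 : ℝ) < G.D := by exact_mod_cast G.D_pos

lemma x_pos : 0 < G.x := div_pos G.D_pos' G.N_pos'

lemma x_le_one : G.x ≤ 1 := by
  unfold x
  rw [div_le_one G.N_pos']
  exact_mod_cast G.D_le

lemma card_X' : (Fintype.card G.X : ℝ) = 2 * G.N := by exact_mod_cast G.card_X

lemma r0 : (G.N : ℝ) / Fintype.card G.X = 1 / 2 := by
  rw [G.card_X']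
  have := G.N_pos'
  field_simp

lemma r1 : (G.D : ℝ) / Fintype.card G.X = G.x / 2 := by
  rw [G.card_X']
  unfold x
  have := G.N_pos'
  field_simp

lemma r2_up : ((1 : ℕ) : ℝ) / Fintype.card G.X ≤ G.x ^ 2 := by
  rw [G.card_X']
  unfold x
  have h := G.N_pos'
  have h2 : (G.N : ℝ) ≤ (G.D : ℝ) ^ 2 := by exact_mod_cast G.N_le
  rw [div_pow, div_le_div_iff₀ (by positivity) (by positivity)]
  push_cast
  nlinarith

lemma r2_low : 1 / 4 * G.x ^ 2 ≤ ((1 : ℕ) : ℝ) / Fintype.card G.X := by
  rw [G.card_X']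
  unfold x
  have h := G.N_pos'
  have h2 : (G.D : ℝ) ^ 2 ≤ 2 * (G.N : ℝ) := by exact_mod_cast G.sq_le
  rw [div_pow, ← mul_div_assoc, div_le_div_iff₀ (by positivity) (by positivity)]
  push_cast
  nlinarith

lemma pow_anti {j k : ℕ} (h : j ≤ k) : G.x ^ k ≤ G.x ^ j :=
  pow_le_pow_of_le_one G.x_pos.le G.x_le_one h

lemma side_of_adj {x y : G.X} {s : Bool} (h : G.adj x y) (hs : G.side x ≠ s) : G.side y = s := by
  have := G.adj_side x y h
  revert this hs
  cases G.side x <;> cases G.side y <;> cases s <;> simp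

end Geo

variable {V : Type} [Fintype V] [DecidableEq V] (σ : V → Bool)

/-- A symmetric relation that joins only vertices on different sides. -/
structure Bip (e : V → V → Prop) : Prop where
  symm : ∀ u v, e u v → e v u
  side : ∀ u v, e u v → σ u ≠ σ v

/-- Side-preserving homomorphisms of the graph induced on `W` (free outside `W`). -/
def Hom (e : V → V → Prop) (W : Finset V) (G : Geo) (φ : V → G.X) : Prop :=
  (∀ v ∈ W, G.side (φ v) = σ v) ∧ ∀ u ∈ W, ∀ v ∈ W, e u v → G.adj (φ u) (φ v)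

/-- Homomorphisms that are injective on `W`. -/
def Inj (e : V → V → Prop) (W : Finset V) (G : Geo) (φ : V → G.X) : Prop :=
  Hom σ e W G φ ∧ ∀ u ∈ W, ∀ v ∈ W, φ u = φ v → u = v

/-- Number of neighbours of `v` inside `W`. -/
noncomputable def deg (e : V → V → Prop) (W : Finset V) (v : V) : ℕ :=
  cnt (fun u => u ∈ W ∧ e u v)

variable {σ} {e : V → V → Prop}

lemma Hom.mono {W W' : Finset V} (h : W ⊆ W') {G : Geo} {φ : V → G.X} (hφ : Hom σ e W' G φ) :
    Hom σ e W G φ :=
  ⟨fun v hv => hφ.1 v (h hv), fun u hu v hv huv => hφ.2 u (h hu) v (h hv) huv⟩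

lemma Inj.mono {W W' : Finset V} (h : W ⊆ W') {G : Geo} {φ : V → G.X} (hφ : Inj σ e W' G φ) :
    Inj σ e W G φ :=
  ⟨hφ.1.mono h, fun u hu v hv huv => hφ.2 u (h hu) v (h hv) huv⟩

omit [Fintype V] in
lemma Hom.congr {W : Finset V} {G : Geo} {φ ψ : V → G.X} (hφ : Hom σ e W G φ)
    (h : ∀ v ∈ W, φ v = ψ v) : Hom σ e W G ψ :=
  ⟨fun v hv => h v hv ▸ hφ.1 v hv,
    fun u hu v hv huv => h u hu ▸ h v hv ▸ hφ.2 u hu v hv huv⟩

omit [Fintype V] in
lemma Inj.congr {W : Finset V} {G : Geo} {φ ψ : V → G.X} (hφ : Inj σ e W G φ)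
    (h : ∀ v ∈ W, φ v = ψ v) : Inj σ e W G ψ :=
  ⟨hφ.1.congr h, fun u hu v hv huv => hφ.2 u hu v hv (by rw [h u hu, h v hv, huv])⟩

omit [Fintype V] in
lemma update_of_notMem {W : Finset V} {v : V} (hv : v ∉ W) {X : Type} (φ : V → X) (y : X) :
    ∀ u ∈ W, update φ v y u = φ u := fun u hu =>
  update_of_ne (by rintro rfl; exact hv hu) _ _

lemma exists_of_one_le_deg {W : Finset V} {v : V} (h : 1 ≤ deg e W v) : ∃ u ∈ W, e u v := by
  by_contra hc
  push Not at hc
  have : deg e W v = 0 := cnt_false (fun u hu => hc u hu.1 hu.2)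
  omega

lemma exists_of_two_le_deg {W : Finset V} {v : V} (h : 2 ≤ deg e W v) :
    ∃ u ∈ W, ∃ w ∈ W, u ≠ w ∧ e u v ∧ e w v := by
  by_contra hc
  push Not at hc
  have : deg e W v ≤ 1 := cnt_le_one (fun u w hu hw => by
    by_contra hne
    exact hc u hu.1 w hw.1 hne hu.2 hw.2)
  omega

/-- The upper counting step. -/
lemma up_step {W : Finset V} {v : V} (hv : v ∉ W) {j : ℕ} (hj : j ≤ 2) (hd : j ≤ deg e W v)
    (G : Geo) : dens (Inj σ e (insert v W) G) ≤ G.x ^ j * dens (Inj σ e W G) := by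
  have h0 : ∀ φ y, Inj σ e (insert v W) G (update φ v y) → Inj σ e W G φ := fun φ y h =>
    (h.mono (subset_insert v W)).congr (update_of_notMem hv φ y)
  have hadj : ∀ (φ : V → G.X) (y : G.X) (u : V), u ∈ W → e u v →
      Inj σ e (insert v W) G (update φ v y) → G.adj (φ u) y := by
    intro φ y u hu huv h
    have := h.1.2 u (mem_insert_of_mem hu) v (mem_insert_self v W) huv
    rwa [update_of_notMem hv φ y u hu, update_self] at this
  have hn := dens_nonneg (Inj σ e W G)
  have hx := G.x_pos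
  interval_cases j
  · simpa using dens_mono (fun φ h => h.mono (subset_insert v W))
  · obtain ⟨u, hu, huv⟩ := exists_of_one_le_deg hd
    have := dens_up v (r := G.D) h0 (fun φ _ => by
      rw [← G.card_adj (φ u)]
      exact cnt_mono (fun y h => hadj φ y u hu huv h))
    rw [G.r1] at this
    refine this.trans ?_
    gcongr
    linarith
  · obtain ⟨u, hu, w, hw, huw, huv, hwv⟩ := exists_of_two_le_deg hd
    have := dens_up v (r := 1) h0 (fun φ hφ => by
      apply cnt_le_one
      intro y y' h h'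
      exact G.uniq (φ u) (φ w) y y' (fun hh => huw (hφ.2 u hu w hw hh))
        (hadj φ y u hu huv h) (hadj φ y w hw hwv h) (hadj φ y' u hu huv h')
        (hadj φ y' w hw hwv h'))
    refine this.trans ?_
    gcongr
    exact G.r2_up

omit [Fintype V] in
lemma hom_insert (he : Bip σ e) {W : Finset V} {v : V} (hv : v ∉ W) {G : Geo} {φ : V → G.X}
    (hφ : Hom σ e W G φ) {y : G.X} (hs : G.side y = σ v)
    (hy : ∀ u ∈ W, e u v → G.adj (φ u) y) : Hom σ e (insert v W) G (update φ v y) := by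
  have hup := update_of_notMem hv φ y
  constructor
  · intro u hu
    rcases mem_insert.mp hu with rfl | hu
    · simpa using hs
    · rw [hup u hu]; exact hφ.1 u hu
  · intro a ha b hb hab
    rcases mem_insert.mp ha with rfl | ha' <;> rcases mem_insert.mp hb with rfl | hb'
    · exact absurd rfl (he.side _ _ hab)
    · rw [hup b hb', update_self]; exact G.symm _ _ (hy b hb' (he.symm _ _ hab))
    · rw [hup a ha', update_self]; exact hy a ha' hab
    · rw [hup a ha', hup b hb']; exact hφ.2 a ha' b hb' hab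

/-- The lower counting step. -/
lemma low_step (he : Bip σ e) {W : Finset V} {v : V} (hv : v ∉ W) (hd : deg e W v ≤ 2)
    (G : Geo) :
    1 / 4 * G.x ^ deg e W v * dens (Hom σ e W G) ≤ dens (Hom σ e (insert v W) G) := by
  classical
  have hn := dens_nonneg (Hom σ e W G)
  have hx := G.x_pos
  have hdeg : deg e W v = (W.filter (fun u => e u v)).card := by
    unfold deg cnt
    congr 1
    ext u
    simp
  generalize hj : deg e W v = j at hd hdeg
  interval_cases j
  · have hno : ∀ u ∈ W, ¬ e u v := by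
      intro u hu huv
      have : u ∈ W.filter (fun u => e u v) := mem_filter.mpr ⟨hu, huv⟩
      rw [card_eq_zero.mp hdeg.symm] at this
      simp at this
    have := dens_low v (r := G.N) (Φ := Hom σ e W G) (Ψ := Hom σ e (insert v W) G)
      (fun φ hφ => by
        rw [← G.card_side (σ v)]
        exact cnt_mono (fun y hy => hom_insert he hv hφ hy (fun u hu huv => absurd huv (hno u hu))))
    rw [G.r0] at this
    refine le_trans ?_ this
    gcongr
    norm_num
  · obtain ⟨u, hu⟩ := card_eq_one.mp hdeg.symm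
    have huW : u ∈ W ∧ e u v := by
      have : u ∈ W.filter (fun u => e u v) := by rw [hu]; simp
      exact mem_filter.mp this
    have honly : ∀ w ∈ W, e w v → w = u := by
      intro w hw hwv
      have : w ∈ W.filter (fun u => e u v) := mem_filter.mpr ⟨hw, hwv⟩
      rw [hu] at this
      simpa using this
    have := dens_low v (r := G.D) (Φ := Hom σ e W G) (Ψ := Hom σ e (insert v W) G)
      (fun φ hφ => by
        rw [← G.card_adj (φ u)]
        refine cnt_mono (fun y hy => hom_insert he hv hφ ?_ ?_)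
        · exact G.side_of_adj hy (by rw [hφ.1 u huW.1]; exact he.side _ _ huW.2)
        · intro w hw hwv
          rw [honly w hw hwv]; exact hy)
    rw [G.r1] at this
    refine le_trans ?_ this
    gcongr
    linarith
  · obtain ⟨u, w, huw, hu⟩ := card_eq_two.mp hdeg.symm
    have huW : u ∈ W ∧ e u v := by
      have : u ∈ W.filter (fun u => e u v) := by rw [hu]; simp
      exact mem_filter.mp this
    have hwW : w ∈ W ∧ e w v := by
      have : w ∈ W.filter (fun u => e u v) := by rw [hu]; simp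
      exact mem_filter.mp this
    have honly : ∀ z ∈ W, e z v → z = u ∨ z = w := by
      intro z hz hzv
      have : z ∈ W.filter (fun u => e u v) := mem_filter.mpr ⟨hz, hzv⟩
      rw [hu] at this
      simpa using this
    have := dens_low v (r := 1) (Φ := Hom σ e W G) (Ψ := Hom σ e (insert v W) G)
      (fun φ hφ => by
        have hs : G.side (φ u) = G.side (φ w) := by
          rw [hφ.1 u huW.1, hφ.1 w hwW.1]
          have h1 := he.side _ _ huW.2
          have h2 := he.side _ _ hwW.2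
          revert h1 h2
          cases σ u <;> cases σ w <;> cases σ v <;> simp
        obtain ⟨y, hy1, hy2⟩ := G.ex _ _ hs
        refine one_le_cnt (a := y) (hom_insert he hv hφ ?_ ?_)
        · exact G.side_of_adj hy1 (by rw [hφ.1 u huW.1]; exact he.side _ _ huW.2)
        · intro z hz hzv
          rcases honly z hz hzv with rfl | rfl
          · exact hy1
          · exact hy2)
    refine le_trans ?_ this
    gcongr
    exact G.r2_low

end Pool.Agent.MP_4388f3_co

end

section

/-! The key lemma: injective homomorphisms are dominated by a pure power that bounds all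
homomorphisms from below. -/

set_option linter.unusedSectionVars false

namespace Pool.Agent.MP_4388f3_co

open Finset Function

variable {V : Type} [Fintype V] [DecidableEq V] {σ : V → Bool} {e : V → V → Prop}

/-- Passing from `S` to `S'` costs at least the factor `x ^ k` for injective homomorphisms. -/
def Up (σ : V → Bool) (e : V → V → Prop) (S S' : Finset V) (k : ℕ) : Prop :=
  ∀ G : Geo, dens (Inj σ e S' G) ≤ G.x ^ k * dens (Inj σ e S G)

lemma Up.trans {S S' S'' : Finset V} {j k : ℕ} (h1 : Up σ e S S' j) (h2 : Up σ e S' S'' k) :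
    Up σ e S S'' (j + k) := by
  intro G
  have hx := G.x_pos
  calc dens (Inj σ e S'' G) ≤ G.x ^ k * dens (Inj σ e S' G) := h2 G
    _ ≤ G.x ^ k * (G.x ^ j * dens (Inj σ e S G)) := by gcongr; exact h1 G
    _ = _ := by ring

lemma Up.weaken {S S' : Finset V} {j k : ℕ} (h : Up σ e S S' k) (hjk : j ≤ k) :
    Up σ e S S' j := by
  intro G
  refine (h G).trans ?_
  exact mul_le_mul_of_nonneg_right (G.pow_anti hjk) (dens_nonneg _)

lemma Up.step {W : Finset V} {v : V} (hv : v ∉ W) : Up σ e W (insert v W) (min 2 (deg e W v)) :=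
  fun G => up_step hv (min_le_left _ _) (min_le_right _ _) G

/-- Every nonempty subset of `B` that avoids `t` sends an edge to the rest of `B`. -/
def Conn (e : V → V → Prop) (B : Finset V) (t : V) : Prop :=
  ∀ K ⊆ B, K.Nonempty → t ∉ K → ∃ u ∈ K, ∃ w ∈ B, w ∉ K ∧ e u w

lemma deg_mono {W W' : Finset V} (h : W ⊆ W') (v : V) : deg e W v ≤ deg e W' v :=
  cnt_mono (fun _ hu => ⟨h hu.1, hu.2⟩)

lemma deg_cover {W A B : Finset V} {v : V} (h : ∀ u ∈ W, e u v → u ∈ A ∨ u ∈ B) :
    deg e W v ≤ deg e A v + deg e B v := by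
  have := cnt_cover (Φ := fun u => u ∈ W ∧ e u v) (Φ₀ := fun u => u ∈ A ∧ e u v)
    ({()} : Finset Unit) (fun _ u => u ∈ B ∧ e u v) (fun u hu => by
      rcases h u hu.1 hu.2 with h1 | h1
      · exact Or.inl ⟨h1, hu.2⟩
      · exact Or.inr ⟨(), by simp, h1, hu.2⟩)
  simpa [deg] using this

lemma one_le_deg {W : Finset V} {u v : V} (hu : u ∈ W) (huv : e u v) : 1 ≤ deg e W v :=
  one_le_cnt (a := u) ⟨hu, huv⟩

/-- The vertex that can be moved from the back part to the front part. -/
lemma exists_move (he : Bip σ e) {W T : Finset V} (hTW : T ⊆ W) {t : V} (ht : t ∈ T)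
    (hmin : ∀ K ⊆ T, K.Nonempty → K ≠ T → ∀ z ∈ W, z ∉ K →
      ∃ u ∈ K, ∃ w ∈ W, e u w ∧ w ∉ K ∧ w ≠ z)
    {B : Finset V} (hBT : B ⊆ T) (htB : t ∈ B) (hB : Conn e B t) (hne : (B.erase t).Nonempty) :
    ∃ v ∈ B, v ≠ t ∧ (∃ w ∈ W, w ∉ B ∧ e v w) ∧ Conn e (B.erase v) t := by
  classical
  by_contra hcon
  have hbad : ∀ v ∈ B, v ≠ t → (∃ w ∈ W, w ∉ B ∧ e v w) →
      ∃ K ⊆ B.erase v, K.Nonempty ∧ t ∉ K ∧ ∀ u ∈ K, ∀ w ∈ B.erase v, w ∉ K → ¬ e u w := by
    intro v hv hvt hw
    by_contra h2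
    apply hcon
    refine ⟨v, hv, hvt, hw, ?_⟩
    intro K hK hKne htK
    by_contra h3
    apply h2
    refine ⟨K, hK, hKne, htK, ?_⟩
    intro u hu w hw hwK huw
    exact h3 ⟨u, hu, w, hw, hwK, huw⟩
  have hproper : ∀ K : Finset V, t ∉ K → K ≠ T := by
    rintro K hK rfl
    exact hK ht
  -- strong induction on the size of the bad set
  have main : ∀ n : ℕ, ∀ v ∈ B, ∀ K ⊆ B.erase v, K.card = n → K.Nonempty → t ∉ K →
      (∀ u ∈ K, ∀ w ∈ B.erase v, w ∉ K → ¬ e u w) → False := by
    intro n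
    induction n using Nat.strong_induction_on with
    | _ n ih =>
      intro v hv K hK hcard hKne htK hKe
      have hKB : K ⊆ B := hK.trans (erase_subset _ _)
      have hvK : v ∉ K := fun h => by simpa using hK h
      obtain ⟨v', hv'K, w, hwW, hv'w, hwK, hwv⟩ :=
        hmin K (hKB.trans hBT) hKne (hproper K htK) v (hTW (hBT hv)) hvK
      have hwB : w ∉ B := fun h => hKe v' hv'K w (mem_erase.mpr ⟨hwv, h⟩) hwK hv'w
      have hv't : v' ≠ t := by rintro rfl; exact htK hv'K
      obtain ⟨K', hK', hK'ne, htK', hK'e⟩ := hbad v' (hKB hv'K) hv't ⟨w, hwW, hwB, hv'w⟩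
      have hK'B : K' ⊆ B := hK'.trans (erase_subset _ _)
      have hv'K' : v' ∉ K' := fun h => by simpa using hK' h
      have hvK' : v ∉ K' := by
        intro hvK'
        obtain ⟨a, ha, b, hb, hbJ, hab⟩ := hB (K ∪ K') (union_subset hKB hK'B)
          (hKne.mono subset_union_left) (by simp [htK, htK'])
        rw [mem_union, not_or] at hbJ
        rcases mem_union.mp ha with ha | ha
        · exact hKe a ha b (mem_erase.mpr ⟨by rintro rfl; exact hbJ.2 hvK', hb⟩) hbJ.1 hab
        · exact hK'e a ha b (mem_erase.mpr ⟨by rintro rfl; exact hbJ.1 hv'K, hb⟩) hbJ.2 hab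
      have hsub : K' ⊆ K := by
        by_contra hns
        have hLne : (K' \ K).Nonempty := by
          rw [sdiff_nonempty]; exact hns
        obtain ⟨a, ha, b, hb, hbL, hab⟩ := hB (K' \ K) (sdiff_subset.trans hK'B) hLne
          (by simp [htK'])
        rw [mem_sdiff] at ha
        have hbK : b ∈ K := by
          by_contra hbK
          have hbK' : b ∉ K' := fun h => hbL (mem_sdiff.mpr ⟨h, hbK⟩)
          exact hK'e a ha.1 b (mem_erase.mpr ⟨by rintro rfl; exact hbK hv'K, hb⟩) hbK' hab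
        exact hKe b hbK a (mem_erase.mpr ⟨by rintro rfl; exact hvK' ha.1, hK'B ha.1⟩) ha.2
          (he.symm _ _ hab)
      have hlt : K'.card < n := by
        rw [← hcard]
        exact card_lt_card ⟨hsub, fun h => hv'K' (h hv'K)⟩
      exact ih _ hlt v' (hKB hv'K) K' hK' rfl hK'ne htK' hK'e
  obtain ⟨u, hu, w, hwW, huw, hwK, hwt⟩ := hmin (B.erase t) ((erase_subset _ _).trans hBT) hne
    (hproper _ (by simp)) t (hTW ht) (by simp)
  have hwB : w ∉ B := fun h => hwK (mem_erase.mpr ⟨hwt, h⟩)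
  obtain ⟨hut, huB⟩ := mem_erase.mp hu
  obtain ⟨K, hK, hKne, htK, hKe⟩ := hbad u huB hut ⟨w, hwW, hwB, huw⟩
  exact main _ u huB K hK rfl hKne htK hKe

/-- An order of `T` and its reverse together gain `3 |T| - 1`. -/
lemma order_bound (he : Bip σ e) {W T : Finset V} (hTW : T ⊆ W) {t : V} (ht : t ∈ T)
    (hdeg : ∀ v ∈ T, 3 ≤ deg e W v)
    (hmin : ∀ K ⊆ T, K.Nonempty → K ≠ T → ∀ z ∈ W, z ∉ K →
      ∃ u ∈ K, ∃ w ∈ W, e u w ∧ w ∉ K ∧ w ≠ z) :
    ∀ n : ℕ, ∀ B ⊆ T, B.card = n → t ∈ B → Conn e B t →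
      ∃ kf kr : ℕ, 3 * B.card ≤ kf + kr + 1 ∧ Up σ e (W \ B) W kf ∧
        Up σ e (W \ T) ((W \ T) ∪ B) kr := by
  intro n
  induction n with
  | zero =>
    intro B _ hc htB _
    rw [card_eq_zero] at hc
    simp [hc] at htB
  | succ n ih =>
    intro B hBT hc htB hB
    by_cases hne : (B.erase t).Nonempty
    · obtain ⟨v, hvB, hvt, ⟨w, hwW, hwB, hvw⟩, hB'⟩ := exists_move he hTW ht hmin hBT htB hB hne
      obtain ⟨kf, kr, hk, hf, hr⟩ := ih (B.erase v) ((erase_subset _ _).trans hBT)
        (by rw [card_erase_of_mem hvB]; omega) (mem_erase.mpr ⟨hvt.symm, htB⟩) hB'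
      have hv1 : v ∉ W \ B := by simp [hvB]
      have hv2 : v ∉ (W \ T) ∪ B.erase v := by simp [hBT hvB]
      have s1 := Up.step (σ := σ) (e := e) hv1
      have s2 := Up.step (σ := σ) (e := e) hv2
      have e1 : insert v (W \ B) = W \ B.erase v := by
        ext a
        simp only [mem_insert, mem_sdiff, mem_erase]
        constructor
        · rintro (rfl | ⟨h1, h2⟩)
          · exact ⟨hTW (hBT hvB), by simp⟩
          · exact ⟨h1, fun h => h2 h.2⟩
        · rintro ⟨h1, h2⟩
          by_cases hav : a = v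
          · exact Or.inl hav
          · exact Or.inr ⟨h1, fun h => h2 ⟨hav, h⟩⟩
      have e2 : insert v ((W \ T) ∪ B.erase v) = (W \ T) ∪ B := by
        ext a
        simp only [mem_insert, mem_union, mem_erase]
        constructor
        · rintro (rfl | h | h)
          · exact Or.inr hvB
          · exact Or.inl h
          · exact Or.inr h.2
        · rintro (h | h)
          · exact Or.inr (Or.inl h)
          · by_cases hav : a = v
            · exact Or.inl hav
            · exact Or.inr (Or.inr ⟨hav, h⟩)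
      rw [e1] at s1
      rw [e2] at s2
      have d1 : 1 ≤ deg e (W \ B) v := one_le_deg (mem_sdiff.mpr ⟨hwW, hwB⟩) (he.symm _ _ hvw)
      have d2 : 1 ≤ deg e ((W \ T) ∪ B.erase v) v := by
        obtain ⟨a, ha, b, hb, hbv, hab⟩ := hB {v} (by simpa using hvB) (by simp)
          (by simpa using hvt.symm)
        rw [mem_singleton] at ha hbv
        subst ha
        exact one_le_deg (mem_union_right _ (mem_erase.mpr ⟨hbv, hb⟩)) (he.symm _ _ hab)
      have d3 : deg e W v ≤ deg e (W \ B) v + deg e ((W \ T) ∪ B.erase v) v := by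
        apply deg_cover
        intro u hu huv
        by_cases huB : u ∈ B
        · refine Or.inr (mem_union_right _ (mem_erase.mpr ⟨?_, huB⟩))
          rintro rfl
          exact he.side _ _ huv rfl
        · exact Or.inl (mem_sdiff.mpr ⟨hu, huB⟩)
      have d4 := hdeg v (hBT hvB)
      refine ⟨_, _, ?_, s1.trans hf, hr.trans s2⟩
      rw [card_erase_of_mem hvB] at hk
      omega
    · have hBt : B = {t} := by
        rw [not_nonempty_iff_eq_empty] at hne
        rw [← insert_erase htB, hne]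
        simp
      subst hBt
      have hv1 : t ∉ W \ {t} := by simp
      have hv2 : t ∉ W \ T := by simp [ht]
      have s1 := Up.step (σ := σ) (e := e) hv1
      have s2 := Up.step (σ := σ) (e := e) hv2
      have e1 : insert t (W \ {t}) = W := by
        ext a
        simp only [mem_insert, mem_sdiff, mem_singleton]
        constructor
        · rintro (rfl | h)
          · exact hTW ht
          · exact h.1
        · intro h
          by_cases hat : a = t
          · exact Or.inl hat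
          · exact Or.inr ⟨h, hat⟩
      have e2 : insert t (W \ T) = (W \ T) ∪ {t} := by
        ext a
        simp only [mem_insert, mem_union, mem_singleton]
        tauto
      rw [e1] at s1
      rw [e2] at s2
      have d3 : deg e W t ≤ deg e (W \ {t}) t + deg e ∅ t := by
        apply deg_cover
        intro u hu hut
        refine Or.inl (mem_sdiff.mpr ⟨hu, ?_⟩)
        rw [mem_singleton]
        rintro rfl
        exact he.side _ _ hut rfl
      have d5 : deg e ∅ t = 0 := cnt_false (by simp)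
      have d4 := hdeg t ht
      refine ⟨_, _, ?_, s1, s2⟩
      simp only [card_singleton]
      omega

/-- All vertices of `T` collapse onto the star with centre `c`. -/
def Col (σ : V → Bool) (c : V) (T : Finset V) (G : Geo) (φ : V → G.X) : Prop :=
  ∀ u ∈ T, (σ u = σ c → φ u = φ c) ∧ (σ u ≠ σ c → G.adj (φ c) (φ u))

lemma col_low (c : V) (G : Geo) (Φ : (V → G.X) → Prop) :
    ∀ T : Finset V, c ∉ T → (∀ u ∈ T, ∀ φ y, Φ φ → Φ (update φ u y)) →
      (1 / 4) ^ T.card * G.x ^ (∑ u ∈ T, if σ u = σ c then 2 else 1) * dens Φ ≤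
        dens (fun φ => Φ φ ∧ Col σ c T G φ) := by
  intro T
  induction T using Finset.induction_on with
  | empty =>
    intro _ _
    simp only [card_empty, pow_zero, sum_empty, mul_one, one_mul]
    exact dens_mono (fun φ h => ⟨h, by simp [Col]⟩)
  | insert u T huT ih =>
    intro hc hΦ
    rw [mem_insert, not_or] at hc
    have ih' := ih hc.2 (fun a ha => hΦ a (mem_insert_of_mem ha))
    have hx := G.x_pos
    have hn := dens_nonneg (fun φ => Φ φ ∧ Col σ c T G φ)
    have hstep : ∀ (φ : V → G.X) (y : G.X), Φ φ ∧ Col σ c T G φ →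
        ((σ u = σ c → y = φ c) ∧ (σ u ≠ σ c → G.adj (φ c) y)) →
        Φ (update φ u y) ∧ Col σ c (insert u T) G (update φ u y) := by
      intro φ y h hy
      refine ⟨hΦ u (mem_insert_self _ _) φ y h.1, ?_⟩
      intro a ha
      rw [update_of_ne hc.1]
      rcases mem_insert.mp ha with rfl | ha
      · simpa using hy
      · rw [update_of_notMem huT φ y a ha]
        exact h.2 a ha
    rw [card_insert_of_notMem huT, sum_insert huT]
    by_cases hs : σ u = σ c
    · have := dens_low u (r := 1) (Φ := fun φ => Φ φ ∧ Col σ c T G φ)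
        (Ψ := fun φ => Φ φ ∧ Col σ c (insert u T) G φ)
        (fun φ h => one_le_cnt (a := φ c) (hstep φ _ h ⟨fun _ => rfl, fun h' => absurd hs h'⟩))
      refine le_trans ?_ this
      rw [if_pos hs]
      calc _ = (1 / 4 * G.x ^ 2) * ((1 / 4) ^ T.card *
              G.x ^ (∑ u ∈ T, if σ u = σ c then 2 else 1) * dens Φ) := by ring
        _ ≤ _ := by
          have := G.r2_low
          have := dens_nonneg Φ
          gcongr
    · have := dens_low u (r := G.D) (Φ := fun φ => Φ φ ∧ Col σ c T G φ)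
        (Ψ := fun φ => Φ φ ∧ Col σ c (insert u T) G φ)
        (fun φ h => by
          rw [← G.card_adj (φ c)]
          exact cnt_mono (fun y hy => hstep φ y h ⟨fun h' => absurd h' hs, fun _ => hy⟩))
      refine le_trans ?_ this
      rw [if_neg hs, G.r1]
      calc _ = (1 / 4 * G.x) * ((1 / 4) ^ T.card *
              G.x ^ (∑ u ∈ T, if σ u = σ c then 2 else 1) * dens Φ) := by ring
        _ ≤ _ := by
          have := dens_nonneg Φ
          have h4 : 1 / 4 * G.x ≤ G.x / 2 := by linarith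
          gcongr

end Pool.Agent.MP_4388f3_co

end

section

/-! Homomorphism densities are, up to constants, pure powers of the edge density. -/

set_option linter.unusedSectionVars false

namespace Pool.Agent.MP_4388f3_co

open Finset Function

variable {V : Type} [Fintype V] [DecidableEq V] {σ : V → Bool} {e : V → V → Prop}

/-- Passing from `S` to `S'` costs at most a constant times `x ^ k` for homomorphisms. -/
def Low (σ : V → Bool) (e : V → V → Prop) (S S' : Finset V) (k : ℕ) : Prop :=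
  ∃ c : ℝ, 0 < c ∧ ∀ G : Geo, c * G.x ^ k * dens (Hom σ e S G) ≤ dens (Hom σ e S' G)

lemma Low.weaken {S S' : Finset V} {j k : ℕ} (h : Low σ e S S' j) (hjk : j ≤ k) :
    Low σ e S S' k := by
  obtain ⟨c, hc, h⟩ := h
  refine ⟨c, hc, fun G => le_trans ?_ (h G)⟩
  exact mul_le_mul_of_nonneg_right (mul_le_mul_of_nonneg_left (G.pow_anti hjk) hc.le)
    (dens_nonneg _)

lemma bool_ne {a b c : Bool} (h1 : a ≠ b) (h2 : a ≠ c) : b = c := by
  revert h1 h2
  cases a <;> cases b <;> cases c <;> simp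

/-- A map that sends the part `T` into one edge star extends a homomorphism of the rest. -/
lemma hom_of_star (he : Bip σ e) {W T : Finset V} {z c : V}
    (hout : ∀ u ∈ T, ∀ w ∈ W, e u w → w ∈ T ∨ w = z) {G : Geo} {φ : V → G.X}
    (hφ : Hom σ e (W \ T) G φ) (hc : G.side (φ c) = σ c)
    (hcol : ∀ u, u ∈ T ∨ u = z → (σ u = σ c → φ u = φ c) ∧ (σ u ≠ σ c → G.adj (φ c) (φ u))) :
    Hom σ e W G φ := by
  have hedge : ∀ a b, (a ∈ T ∨ a = z) → (b ∈ T ∨ b = z) → e a b → G.adj (φ a) (φ b) := by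
    intro a b ha hb hab
    have hs := he.side _ _ hab
    by_cases hac : σ a = σ c
    · rw [(hcol a ha).1 hac]
      exact (hcol b hb).2 (fun h => hs (hac.trans h.symm))
    · have hbc : σ b = σ c := bool_ne hs hac
      rw [(hcol b hb).1 hbc]
      exact G.symm _ _ ((hcol a ha).2 hac)
  constructor
  · intro v hv
    by_cases hvT : v ∈ T
    · by_cases hvc : σ v = σ c
      · rw [(hcol v (Or.inl hvT)).1 hvc, hc, hvc]
      · exact G.side_of_adj ((hcol v (Or.inl hvT)).2 hvc) (by rw [hc]; exact Ne.symm hvc)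
    · exact hφ.1 v (mem_sdiff.mpr ⟨hv, hvT⟩)
  · intro a ha b hb hab
    by_cases haT : a ∈ T
    · exact hedge a b (Or.inl haT) (hout a haT b hb hab) hab
    · by_cases hbT : b ∈ T
      · exact hedge a b (hout b hbT a ha (he.symm _ _ hab)) (Or.inl hbT) hab
      · exact hφ.2 a (mem_sdiff.mpr ⟨ha, haT⟩) b (mem_sdiff.mpr ⟨hb, hbT⟩) hab

lemma hom_sdiff_update {W T : Finset V} {G : Geo} {u : V} (hu : u ∈ T) (φ : V → G.X) (y : G.X)
    (h : Hom σ e (W \ T) G φ) : Hom σ e (W \ T) G (update φ u y) :=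
  h.congr (fun a ha => (update_of_notMem (by simp [hu]) φ y a ha).symm)

lemma low_one (he : Bip σ e) {W T : Finset V} {z : V} (hz : z ∈ W) (hzT : z ∉ T)
    (hout : ∀ u ∈ T, ∀ w ∈ W, e u w → w ∈ T ∨ w = z) :
    Low σ e (W \ T) W (∑ u ∈ T, if σ u = σ z then 2 else 1) := by
  refine ⟨(1 / 4) ^ T.card, by positivity, fun G => ?_⟩
  refine (col_low z G (Hom σ e (W \ T) G) T hzT
    (fun u hu φ y h => hom_sdiff_update hu φ y h)).trans (dens_mono ?_)
  rintro φ ⟨h1, h2⟩
  refine hom_of_star he hout h1 (c := z) (h1.1 z (mem_sdiff.mpr ⟨hz, hzT⟩)) ?_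
  rintro u (hu | rfl)
  · exact h2 u hu
  · exact ⟨fun _ => rfl, fun h => absurd rfl h⟩

lemma low_two (he : Bip σ e) {W T : Finset V} {z y₀ : V} (hz : z ∈ W) (hzT : z ∉ T)
    (hout : ∀ u ∈ T, ∀ w ∈ W, e u w → w ∈ T ∨ w = z) (hy : y₀ ∈ T) (hs : σ y₀ ≠ σ z) :
    Low σ e (W \ T) W (1 + ∑ u ∈ T.erase y₀, if σ u = σ y₀ then 2 else 1) := by
  refine ⟨(1 / 4) ^ (T.erase y₀).card * (1 / 4), by positivity, fun G => ?_⟩
  have hzy : z ≠ y₀ := by rintro rfl; exact hzT hy
  have h1 := col_low (σ := σ) z G (Hom σ e (W \ T) G) {y₀} (by simpa using hzy)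
    (fun u hu φ y h => hom_sdiff_update (by rw [mem_singleton.mp hu]; exact hy) φ y h)
  have h2 := col_low (σ := σ) y₀ G (fun φ => Hom σ e (W \ T) G φ ∧ Col σ z {y₀} G φ)
    (T.erase y₀) (by simp) (by
      intro u hu φ y h
      obtain ⟨huy, huT⟩ := mem_erase.mp hu
      refine ⟨hom_sdiff_update huT φ y h.1, ?_⟩
      intro a ha
      rw [mem_singleton] at ha
      subst ha
      have huz : z ≠ u := by rintro rfl; exact hzT huT
      rw [update_of_ne huy.symm, update_of_ne huz]
      exact h.2 a (by simp))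
  simp only [card_singleton, pow_one, sum_singleton, if_neg hs] at h1
  have hx := G.x_pos
  calc _ = (1 / 4) ^ (T.erase y₀).card *
          G.x ^ (∑ u ∈ T.erase y₀, if σ u = σ y₀ then 2 else 1) *
          (1 / 4 * G.x * dens (Hom σ e (W \ T) G)) := by ring
    _ ≤ (1 / 4) ^ (T.erase y₀).card *
          G.x ^ (∑ u ∈ T.erase y₀, if σ u = σ y₀ then 2 else 1) *
          dens (fun φ => Hom σ e (W \ T) G φ ∧ Col σ z {y₀} G φ) := by gcongr
    _ ≤ _ := h2
    _ ≤ _ := by
      apply dens_mono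
      rintro φ ⟨⟨h1, h2⟩, h3⟩
      have hzy' : G.adj (φ z) (φ y₀) := (h2 y₀ (by simp)).2 hs
      have hzs : G.side (φ z) = σ z := h1.1 z (mem_sdiff.mpr ⟨hz, hzT⟩)
      refine hom_of_star he hout h1 (c := y₀)
        (G.side_of_adj hzy' (by rw [hzs]; exact hs.symm)) ?_
      rintro u (hu | rfl)
      · by_cases huy : u = y₀
        · subst huy
          exact ⟨fun _ => rfl, fun h => absurd rfl h⟩
        · exact h3 u (mem_erase.mpr ⟨huy, hu⟩)
      · exact ⟨fun h => absurd h.symm hs, fun _ => G.symm _ _ hzy'⟩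

lemma exponent_sum {T : Finset V} {z y₀ : V} (hy : y₀ ∈ T) (hs : σ y₀ ≠ σ z) :
    (∑ u ∈ T, if σ u = σ z then 2 else 1) +
      (1 + ∑ u ∈ T.erase y₀, if σ u = σ y₀ then 2 else 1) + 1 = 3 * T.card := by
  have h1 := add_sum_erase T (fun u => if σ u = σ y₀ then 2 else 1) hy
  simp only [if_true] at h1
  have h2 : (∑ u ∈ T, if σ u = σ z then 2 else 1) + (∑ u ∈ T, if σ u = σ y₀ then 2 else 1)
      = ∑ _u ∈ T, 3 := by
    rw [← sum_add_distrib]
    apply sum_congr rfl
    intro u _
    revert hs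
    cases σ u <;> cases σ z <;> cases σ y₀ <;> simp
  rw [sum_const, smul_eq_mul] at h2
  omega

/-- A part of a graph of minimum degree at least three that can be removed. -/
lemma exists_part (he : Bip σ e) {W : Finset V} (hW : W.Nonempty)
    (hdeg : ∀ v ∈ W, 3 ≤ deg e W v) :
    ∃ T ⊆ W, T.Nonempty ∧ ∃ j, Up σ e (W \ T) W j ∧ Low σ e (W \ T) W j := by
  classical
  let Good : Finset V → Prop := fun T => T ⊆ W ∧ T.Nonempty ∧
    ∃ z ∈ W, z ∉ T ∧ ∀ u ∈ T, ∀ w ∈ W, e u w → w ∈ T ∨ w = z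
  have hex : ∃ T, Good T := by
    obtain ⟨s, hs⟩ := hW
    obtain ⟨u, hu, hus⟩ := exists_of_one_le_deg (e := e) (W := W) (v := s)
      (by have := hdeg s hs; omega)
    refine ⟨W.erase s, erase_subset _ _, ⟨u, mem_erase.mpr ⟨?_, hu⟩⟩, s, hs, by simp, ?_⟩
    · rintro rfl
      exact he.side _ _ hus rfl
    · intro a _ w hw _
      by_cases hws : w = s
      · exact Or.inr hws
      · exact Or.inl (mem_erase.mpr ⟨hws, hw⟩)
  obtain ⟨T, hT, hTmin⟩ := exists_min_image (univ.filter Good) card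
    (by obtain ⟨T, hT⟩ := hex; exact ⟨T, by simpa using hT⟩)
  rw [mem_filter] at hT
  obtain ⟨hTW, hTne, z, hz, hzT, hout⟩ := hT.2
  have hmin : ∀ K ⊆ T, K.Nonempty → K ≠ T → ∀ z ∈ W, z ∉ K →
      ∃ u ∈ K, ∃ w ∈ W, e u w ∧ w ∉ K ∧ w ≠ z := by
    intro K hK hKne hKT z' hz' hz'K
    by_contra hcon
    have hG : Good K := by
      refine ⟨hK.trans hTW, hKne, z', hz', hz'K, ?_⟩
      intro u hu w hw huw
      by_contra h2
      rw [not_or] at h2
      exact hcon ⟨u, hu, w, hw, huw, h2.1, h2.2⟩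
    have h1 := hTmin K (by simpa using hG)
    have h2 := card_lt_card (Finset.ssubset_iff_subset_ne.mpr ⟨hK, hKT⟩)
    omega
  obtain ⟨t, ht⟩ := hTne
  have hconn : Conn e T t := by
    intro K hK hKne htK
    obtain ⟨u, hu, w, hw, huw, hwK, hwz⟩ := hmin K hK hKne (by rintro rfl; exact htK ht) z hz
      (fun h => hzT (hK h))
    exact ⟨u, hu, w, (hout u (hK hu) w hw huw).resolve_right hwz, hwK, huw⟩
  obtain ⟨kf, kr, hk, hf, hr⟩ := order_bound he hTW ht (fun v hv => hdeg v (hTW hv)) hmin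
    _ T Subset.rfl rfl ht hconn
  rw [sdiff_union_of_subset hTW] at hr
  have hy : ∃ y₀ ∈ T, σ y₀ ≠ σ z := by
    by_cases htz : σ t = σ z
    · obtain ⟨u, hu, hut⟩ := exists_of_one_le_deg (e := e) (W := W) (v := t)
        (by have := hdeg t (hTW ht); omega)
      have hs : σ u ≠ σ z := htz ▸ he.side _ _ hut
      exact ⟨u, (hout t ht u hu (he.symm _ _ hut)).resolve_right (by rintro rfl; exact hs rfl), hs⟩
    · exact ⟨t, ht, htz⟩
  obtain ⟨y₀, hy, hs⟩ := hy
  have l1 := low_one he hz hzT hout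
  have l2 := low_two he hz hzT hout hy hs
  have hsum := exponent_sum hy hs
  refine ⟨T, hTW, ⟨t, ht⟩, max kf kr, ?_, ?_⟩
  · rcases le_total kf kr with h | h
    · rw [max_eq_right h]; exact hr
    · rw [max_eq_left h]; exact hf
  · by_cases h : (∑ u ∈ T, if σ u = σ z then 2 else 1) ≤ max kf kr
    · exact l1.weaken h
    · refine l2.weaken ?_
      omega

/-- The key lemma. -/
lemma key (he : Bip σ e) (W : Finset V) :
    ∃ (k : ℕ) (c : ℝ), 0 < c ∧ ∀ G : Geo,
      dens (Inj σ e W G) ≤ G.x ^ k ∧ c * G.x ^ k ≤ dens (Hom σ e W G) := by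
  induction W using Finset.strongInduction with
  | H W ih =>
    rcases W.eq_empty_or_nonempty with rfl | hW
    · refine ⟨0, 1, one_pos, fun G => ⟨by simpa using dens_le_one _, ?_⟩⟩
      rw [dens_true (fun φ => by simp [Hom])]
      simp
    have hpart : ∃ T ⊆ W, T.Nonempty ∧ ∃ j, Up σ e (W \ T) W j ∧ Low σ e (W \ T) W j := by
      by_cases hdeg : ∀ v ∈ W, 3 ≤ deg e W v
      · exact exists_part he hW hdeg
      · push Not at hdeg
        obtain ⟨v, hv, hd⟩ := hdeg
        have hv' : v ∉ W \ {v} := by simp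
        have hd' : deg e (W \ {v}) v ≤ 2 := by
          have := deg_mono (e := e) (sdiff_subset : W \ {v} ⊆ W) v
          omega
        have e1 : insert v (W \ {v}) = W := by
          rw [sdiff_singleton_eq_erase, insert_erase hv]
        refine ⟨{v}, by simpa using hv, by simp, deg e (W \ {v}) v, ?_, 1 / 4, by norm_num, ?_⟩
        · intro G
          have := up_step (σ := σ) hv' hd' le_rfl G
          rwa [e1] at this
        · intro G
          have := low_step he hv' hd' G
          rwa [e1] at this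
    obtain ⟨T, hTW, hTne, j, hup, c', hc', hlow⟩ := hpart
    obtain ⟨k, c, hc, h⟩ := ih (W \ T) (sdiff_ssubset hTW hTne)
    refine ⟨j + k, c' * c, by positivity, fun G => ⟨?_, ?_⟩⟩
    · have hx := G.x_pos
      calc _ ≤ _ := hup G
        _ ≤ G.x ^ j * G.x ^ k := by gcongr; exact (h G).1
        _ = _ := by ring
    · have hx := G.x_pos
      calc _ = c' * G.x ^ j * (c * G.x ^ k) := by ring
        _ ≤ c' * G.x ^ j * dens (Hom σ e (W \ T) G) := by gcongr; exact (h G).2
        _ ≤ _ := hlow G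

/-- `f` is a pure power of the edge density up to constant factors. -/
def Theta (f : Geo → ℝ) : Prop :=
  ∃ (k : ℕ) (c C : ℝ), 0 < c ∧ 0 < C ∧ ∀ G : Geo, c * G.x ^ k ≤ f G ∧ f G ≤ C * G.x ^ k

lemma Theta.pow (k : ℕ) : Theta (fun G => G.x ^ k) :=
  ⟨k, 1, 1, one_pos, one_pos, fun G => by simp⟩

lemma Theta.add {f g : Geo → ℝ} (hf : Theta f) (hg : Theta g) : Theta (fun G => f G + g G) := by
  obtain ⟨k, c, C, hc, hC, h⟩ := hf
  obtain ⟨k', c', C', hc', hC', h'⟩ := hg
  refine ⟨min k k', min c c', C + C', lt_min hc hc', by positivity, fun G => ⟨?_, ?_⟩⟩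
  · have hx := G.x_pos
    have h1 : 0 ≤ f G := le_trans (by positivity) (h G).1
    have h2 : 0 ≤ g G := le_trans (by positivity) (h' G).1
    rcases le_total k k' with hk | hk
    · rw [min_eq_left hk]
      have : min c c' * G.x ^ k ≤ c * G.x ^ k := by gcongr; exact min_le_left _ _
      linarith [(h G).1]
    · rw [min_eq_right hk]
      have : min c c' * G.x ^ k' ≤ c' * G.x ^ k' := by gcongr; exact min_le_right _ _
      linarith [(h' G).1]
  · have h1 : C * G.x ^ k ≤ C * G.x ^ min k k' :=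
      mul_le_mul_of_nonneg_left (G.pow_anti (min_le_left _ _)) hC.le
    have h2 : C' * G.x ^ k' ≤ C' * G.x ^ min k k' :=
      mul_le_mul_of_nonneg_left (G.pow_anti (min_le_right _ _)) hC'.le
    linarith [(h G).2, (h' G).2]

lemma Theta.sandwich {f g : Geo → ℝ} (hf : Theta f) {a b : ℝ} (ha : 0 < a) (hb : 0 < b) (j : ℕ)
    (h : ∀ G, a * G.x ^ j * f G ≤ g G ∧ g G ≤ b * G.x ^ j * f G) : Theta g := by
  obtain ⟨k, c, C, hc, hC, hf⟩ := hf
  refine ⟨j + k, a * c, b * C, by positivity, by positivity, fun G => ⟨?_, ?_⟩⟩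
  · have hx := G.x_pos
    calc _ = a * G.x ^ j * (c * G.x ^ k) := by ring
      _ ≤ a * G.x ^ j * f G := by gcongr; exact (hf G).1
      _ ≤ _ := (h G).1
  · have hx := G.x_pos
    calc _ ≤ b * G.x ^ j * f G := (h G).2
      _ ≤ b * G.x ^ j * (C * G.x ^ k) := by gcongr; exact (hf G).2
      _ = _ := by ring

lemma Theta.sum {ι : Type} [DecidableEq ι] {f₀ : Geo → ℝ} (h₀ : Theta f₀) (f : ι → Geo → ℝ)
    (s : Finset ι) (h : ∀ i ∈ s, Theta (f i)) : Theta (fun G => f₀ G + ∑ i ∈ s, f i G) := by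
  induction s using Finset.induction_on with
  | empty => simpa using h₀
  | insert i s hi ih =>
    have := (h i (mem_insert_self _ _)).add (ih (fun j hj => h j (mem_insert_of_mem hj)))
    convert this using 2 with G
    rw [sum_insert hi]
    ring

/-- The relation obtained by identifying `u'` with `u`. -/
def merge (e : V → V → Prop) (u u' : V) : V → V → Prop :=
  fun a b => e a b ∨ (a = u ∧ e u' b) ∨ (b = u ∧ e a u')

lemma merge_bip (he : Bip σ e) {u u' : V} (hs : σ u = σ u') : Bip σ (merge e u u') := by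
  constructor
  · rintro a b (h | ⟨rfl, h⟩ | ⟨rfl, h⟩)
    · exact Or.inl (he.symm _ _ h)
    · exact Or.inr (Or.inr ⟨rfl, he.symm _ _ h⟩)
    · exact Or.inr (Or.inl ⟨rfl, he.symm _ _ h⟩)
  · rintro a b (h | ⟨rfl, h⟩ | ⟨rfl, h⟩)
    · exact he.side _ _ h
    · rw [hs]; exact he.side _ _ h
    · rw [hs]; exact he.side _ _ h

lemma merge_iff (he : Bip σ e) {W : Finset V} {u u' : V} (hu : u ∈ W) (hu' : u' ∈ W)
    (hne : u ≠ u') (hs : σ u = σ u') {G : Geo} (φ : V → G.X) :
    (Hom σ e W G φ ∧ φ u = φ u') ↔ (Hom σ (merge e u u') (W.erase u') G φ ∧ φ u' = φ u) := by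
  constructor
  · rintro ⟨h, hφ⟩
    refine ⟨⟨fun v hv => h.1 v (mem_of_mem_erase hv), ?_⟩, hφ.symm⟩
    rintro a ha b hb (hab | ⟨rfl, hab⟩ | ⟨rfl, hab⟩)
    · exact h.2 a (mem_of_mem_erase ha) b (mem_of_mem_erase hb) hab
    · rw [hφ]; exact h.2 u' hu' b (mem_of_mem_erase hb) hab
    · rw [hφ]; exact h.2 a (mem_of_mem_erase ha) u' hu' hab
  · rintro ⟨h, hφ⟩
    have hu2 : u ∈ W.erase u' := mem_erase.mpr ⟨hne, hu⟩
    refine ⟨⟨?_, ?_⟩, hφ.symm⟩
    · intro v hv
      by_cases hvu : v = u'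
      · rw [hvu, hφ, ← hs]; exact h.1 u hu2
      · exact h.1 v (mem_erase.mpr ⟨hvu, hv⟩)
    · intro a ha b hb hab
      by_cases hau : a = u'
      · have hbu : b ≠ u' := by
          rintro rfl
          exact he.side _ _ hab (by rw [hau])
        rw [hau, hφ]
        exact h.2 u hu2 b (mem_erase.mpr ⟨hbu, hb⟩) (Or.inr (Or.inl ⟨rfl, hau ▸ hab⟩))
      · by_cases hbu : b = u'
        · rw [hbu, hφ]
          exact h.2 a (mem_erase.mpr ⟨hau, ha⟩) u hu2 (Or.inr (Or.inr ⟨rfl, hbu ▸ hab⟩))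
        · exact h.2 a (mem_erase.mpr ⟨hau, ha⟩) b (mem_erase.mpr ⟨hbu, hb⟩) (Or.inl hab)

lemma theta_hom (σ : V → Bool) : ∀ n : ℕ, ∀ W : Finset V, W.card = n →
    ∀ e : V → V → Prop, Bip σ e → Theta (fun G => dens (Hom σ e W G)) := by
  intro n
  induction n using Nat.strong_induction_on with
  | _ n ih =>
    intro W hW e he
    classical
    let s : Finset (V × V) := (W ×ˢ W).filter (fun p => p.1 ≠ p.2 ∧ σ p.1 = σ p.2)
    let f : V × V → Geo → ℝ := fun p G => dens (fun φ => Hom σ e W G φ ∧ φ p.1 = φ p.2)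
    have hf : ∀ p ∈ s, Theta (f p) := by
      rintro ⟨u, u'⟩ hp
      simp only [s, mem_filter, mem_product] at hp
      obtain ⟨⟨hu, hu'⟩, hne, hs⟩ := hp
      have hlt : (W.erase u').card < n := hW ▸ card_erase_lt_of_mem hu'
      have h1 := ih _ hlt (W.erase u') rfl _ (merge_bip he hs)
      refine h1.sandwich (a := 1 / 4) (b := 1) (by norm_num) one_pos 2 (fun G => ?_)
      have hrw : (fun φ : V → G.X => Hom σ e W G φ ∧ φ u = φ u') =
          (fun φ => Hom σ (merge e u u') (W.erase u') G φ ∧ φ u' = φ u) := by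
        funext φ
        exact propext (merge_iff he hu hu' hne hs φ)
      simp only [f]
      rw [hrw]
      have hn := dens_nonneg (Hom σ (merge e u u') (W.erase u') G)
      have hupd : ∀ (φ : V → G.X) (y : G.X), ∀ a ∈ W.erase u', update φ u' y a = φ a :=
        fun φ y => update_of_notMem (by simp) φ y
      constructor
      · have := dens_low u' (r := 1) (Φ := Hom σ (merge e u u') (W.erase u') G)
          (Ψ := fun φ => Hom σ (merge e u u') (W.erase u') G φ ∧ φ u' = φ u)
          (fun φ h => one_le_cnt (a := φ u)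
            ⟨h.congr (fun a ha => (hupd φ _ a ha).symm), by simp [update_of_ne hne]⟩)
        refine le_trans ?_ this
        have := G.r2_low
        gcongr
      · have := dens_up u' (r := 1) (Φ := Hom σ (merge e u u') (W.erase u') G)
          (Ψ := fun φ => Hom σ (merge e u u') (W.erase u') G φ ∧ φ u' = φ u)
          (fun φ y h => h.1.congr (hupd φ y))
          (fun φ _ => cnt_le_one (fun y y' h h' => by
            have h1 := h.2
            have h2 := h'.2
            simp only [update_self, update_of_ne hne] at h1 h2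
            rw [h1, h2]))
        refine this.trans ?_
        rw [one_mul]
        have := G.r2_up
        gcongr
    obtain ⟨k, c, hc, hk⟩ := key he W
    have hS := (Theta.pow k).sum f s hf
    refine hS.sandwich (a := min c 1 / (s.card + 1)) (b := 1)
      (by have := lt_min hc one_pos; positivity) one_pos 0 (fun G => ⟨?_, ?_⟩)
    · have hx := G.x_pos
      have hm : 0 < min c 1 := lt_min hc one_pos
      have h1 : min c 1 * G.x ^ k ≤ dens (Hom σ e W G) :=
        le_trans (by gcongr; exact min_le_left _ _) (hk G).2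
      have h2 : ∑ p ∈ s, f p G ≤ s.card * dens (Hom σ e W G) := by
        rw [← nsmul_eq_mul]
        exact sum_le_card_nsmul _ _ _ (fun p _ => dens_mono (fun φ h => h.1))
      have h3 : 0 ≤ ∑ p ∈ s, f p G := sum_nonneg (fun p _ => dens_nonneg _)
      have h4 : min c 1 * ∑ p ∈ s, f p G ≤ ∑ p ∈ s, f p G := by
        have := min_le_right c 1
        nlinarith
      rw [pow_zero, mul_one, div_mul_eq_mul_div, div_le_iff₀ (by positivity)]
      nlinarith
    · have := dens_cover (Φ := Hom σ e W G) (Φ₀ := Inj σ e W G) s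
        (fun p φ => Hom σ e W G φ ∧ φ p.1 = φ p.2) (fun φ h => by
          by_cases hi : ∀ u ∈ W, ∀ v ∈ W, φ u = φ v → u = v
          · exact Or.inl ⟨h, hi⟩
          · push Not at hi
            obtain ⟨u, hu, v, hv, huv, hne⟩ := hi
            refine Or.inr ⟨(u, v), ?_, h, huv⟩
            simp only [s, mem_filter, mem_product]
            exact ⟨⟨hu, hv⟩, hne, by rw [← h.1 u hu, ← h.1 v hv, huv]⟩)
      simp only [pow_zero, mul_one, one_mul]
      linarith [(hk G).1]

/-- A graph with an edge has density at most the edge density. -/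
lemma dens_le_x {W : Finset V} {a b : V} (ha : a ∈ W) (hb : b ∈ W) (he : Bip σ e) (hab : e a b)
    (G : Geo) : dens (Hom σ e W G) ≤ G.x := by
  have hne : a ≠ b := by rintro rfl; exact he.side _ _ hab rfl
  have := dens_up b (r := G.D) (Φ := fun _ : V → G.X => True) (Ψ := Hom σ e W G)
    (fun _ _ _ => trivial) (fun φ _ => by
      rw [← G.card_adj (φ a)]
      refine cnt_mono (fun y h => ?_)
      have := h.2 a ha b hb hab
      rwa [update_of_ne hne, update_self] at this)
  rw [G.r1, dens_true (fun _ => trivial)] at this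
  linarith [G.x_pos]

end Pool.Agent.MP_4388f3_co

end

section

/-! From projective planes to the structures of the counting lemmas. -/

set_option linter.style.haveILetI false

namespace Pool.Agent.MP_4388f3_co

open Finset Function Filter Topology

lemma plane_counts {G : BipGraph} {m : ℕ} (h : IsPlaneOfOrder G m) :
    Nat.card G.V₁ = m ^ 2 + m + 1 ∧ Nat.card G.V₂ = m ^ 2 + m + 1 ∧
      (∀ p : G.V₁, Nat.card {l : G.V₂ // G.E p l} = m + 1) ∧ 1 < m := by
  classical
  obtain ⟨h1, h2, ⟨x, hx, h3⟩, h4⟩ := h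
  haveI := G.finite₁
  haveI := G.finite₂
  letI := Fintype.ofFinite G.V₁
  letI := Fintype.ofFinite G.V₂
  letI : Membership G.V₁ G.V₂ := ⟨fun l p => G.E p l⟩
  have hmem : ∀ (p : G.V₁) (l : G.V₂), p ∈ l ↔ G.E p l := fun _ _ => Iff.rfl
  have hline : ∀ i j : Fin 4, i ≠ j → ∃ l, G.E (x i) l ∧ G.E (x j) l :=
    fun i j hij => (h1 _ _ (hx.ne hij)).exists
  have huniq : ∀ {p₁ p₂ : G.V₁} {l₁ l₂ : G.V₂}, G.E p₁ l₁ → G.E p₂ l₁ → G.E p₁ l₂ → G.E p₂ l₂ →
      p₁ = p₂ ∨ l₁ = l₂ := by
    intro p₁ p₂ l₁ l₂ a b c d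
    by_cases hp : p₁ = p₂
    · exact Or.inl hp
    · exact Or.inr ((h1 _ _ hp).unique ⟨a, b⟩ ⟨c, d⟩)
  obtain ⟨l01, h01⟩ := hline 0 1 (by decide)
  obtain ⟨l02, h02⟩ := hline 0 2 (by decide)
  obtain ⟨l12, h12⟩ := hline 1 2 (by decide)
  obtain ⟨l03, h03⟩ := hline 0 3 (by decide)
  obtain ⟨l13, h13⟩ := hline 1 3 (by decide)
  letI nd : Configuration.Nondegenerate G.V₁ G.V₂ :=
    { exists_point := fun l => by
        by_contra hc
        push Not at hc
        exact h3 l 0 1 2 (by decide) (by decide) (by decide) ⟨hc _, hc _, hc _⟩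
      exists_line := fun p => by
        by_contra hc
        push Not at hc
        have a : p = x 0 := by
          rcases huniq (hc l01) h01.1 (hc l02) h02.1 with h | h
          · exact h
          · exact absurd ⟨h01.1, h01.2, h ▸ h02.2⟩
              (h3 l01 0 1 2 (by decide) (by decide) (by decide))
        exact h3 l12 0 1 2 (by decide) (by decide) (by decide) ⟨a ▸ hc l12, h12.1, h12.2⟩
      eq_or_eq := huniq }
  letI pp : Configuration.ProjectivePlane G.V₁ G.V₂ :=
    { nd with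
      mkPoint := fun {l₁ l₂} hl => (h2 l₁ l₂ hl).exists.choose
      mkPoint_ax := fun {l₁ l₂} hl => (h2 l₁ l₂ hl).exists.choose_spec
      mkLine := fun {p₁ p₂} hp => (h1 p₁ p₂ hp).exists.choose
      mkLine_ax := fun {p₁ p₂} hp => (h1 p₁ p₂ hp).exists.choose_spec
      exists_config := ⟨x 0, x 1, x 2, l03, l12, l13,
        fun h => h3 l12 0 1 2 (by decide) (by decide) (by decide) ⟨h, h12.1, h12.2⟩,
        fun h => h3 l13 0 1 3 (by decide) (by decide) (by decide) ⟨h, h13.1, h13.2⟩,
        fun h => h3 l03 0 1 3 (by decide) (by decide) (by decide) ⟨h03.1, h, h03.2⟩,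
        h12.1, h13.1,
        fun h => h3 l03 0 2 3 (by decide) (by decide) (by decide) ⟨h03.1, h, h03.2⟩,
        h12.2,
        fun h => h3 l13 1 2 3 (by decide) (by decide) (by decide) ⟨h13.1, h, h13.2⟩⟩ }
  have hord : Configuration.ProjectivePlane.order G.V₁ G.V₂ = m := by
    have a := Configuration.ProjectivePlane.pointCount_eq G.V₁ l01
    have b : Configuration.pointCount G.V₁ l01 = m + 1 := h4 l01
    omega
  refine ⟨?_, ?_, fun p => ?_, ?_⟩
  · rw [Nat.card_eq_fintype_card, Configuration.ProjectivePlane.card_points G.V₁ G.V₂, hord]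
  · rw [Nat.card_eq_fintype_card, Configuration.ProjectivePlane.card_lines G.V₁ G.V₂, hord]
  · rw [← hord]
    exact Configuration.ProjectivePlane.lineCount_eq G.V₂ p
  · rw [← hord]
    exact Configuration.ProjectivePlane.one_lt_order G.V₁ G.V₂

/-- The symmetric relation on the disjoint union of the two classes. -/
def sumRel {A B : Type} (E : A → B → Prop) : A ⊕ B → A ⊕ B → Prop
  | .inl a, .inr b => E a b
  | .inr b, .inl a => E a b
  | _, _ => False

lemma sumRel_bip {A B : Type} (E : A → B → Prop) : Bip Sum.isRight (sumRel E) := by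
  constructor
  · rintro (a | a) (b | b) h <;> exact h
  · rintro (a | a) (b | b) h <;> first | exact h.elim | simp

lemma cnt_inl {A B : Type} [Fintype (A ⊕ B)] (Φ : A ⊕ B → Prop) (h : ∀ b, ¬ Φ (.inr b)) :
    cnt Φ = Nat.card {a // Φ (.inl a)} := by
  rw [cnt_eq_natCard]
  symm
  refine Nat.card_eq_of_bijective (fun a => ⟨.inl a.1, a.2⟩) ⟨?_, ?_⟩
  · intro a b hab
    simpa [Subtype.ext_iff] using hab
  · rintro ⟨a | b, hb⟩
    · exact ⟨⟨a, hb⟩, rfl⟩
    · exact absurd hb (h b)

lemma cnt_inr {A B : Type} [Fintype (A ⊕ B)] (Φ : A ⊕ B → Prop) (h : ∀ a, ¬ Φ (.inl a)) :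
    cnt Φ = Nat.card {b // Φ (.inr b)} := by
  rw [cnt_eq_natCard]
  symm
  refine Nat.card_eq_of_bijective (fun a => ⟨.inr a.1, a.2⟩) ⟨?_, ?_⟩
  · intro a b hab
    simpa [Subtype.ext_iff] using hab
  · rintro ⟨a | b, hb⟩
    · exact absurd hb (h a)
    · exact ⟨⟨b, hb⟩, rfl⟩

/-- The structure attached to a projective plane. -/
noncomputable def geo {G : BipGraph} {m : ℕ} (h : IsPlaneOfOrder G m) : Geo :=
  haveI := G.finite₁
  haveI := G.finite₂
  { X := G.V₁ ⊕ G.V₂
    fin := Fintype.ofFinite _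
    ne := by obtain ⟨-, -, ⟨x, -⟩, -⟩ := h; exact ⟨.inl (x 0)⟩
    side := Sum.isRight
    adj := sumRel G.E
    N := m ^ 2 + m + 1
    D := m + 1
    symm := (sumRel_bip G.E).symm
    adj_side := (sumRel_bip G.E).side
    card_X := by
      rw [← @Nat.card_eq_fintype_card _ (Fintype.ofFinite _), Nat.card_sum, (plane_counts h).1,
        (plane_counts h).2.1]
      ring
    card_side := by
      letI := Fintype.ofFinite (G.V₁ ⊕ G.V₂)
      rintro (_ | _)
      · rw [cnt_inl _ (by simp), ← (plane_counts h).1]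
        simp
      · rw [cnt_inr _ (by simp), ← (plane_counts h).2.1]
        simp
    card_adj := by
      letI := Fintype.ofFinite (G.V₁ ⊕ G.V₂)
      rintro (p | l)
      · rw [cnt_inr _ (fun a h => h)]
        exact (plane_counts h).2.2.1 p
      · rw [cnt_inl _ (fun a h => h)]
        exact h.2.2.2 l
    uniq := by
      rintro (x | x) (y | y) (z | z) (w | w) hxy h1 h2 h3 h4 <;>
        first
        | exact h1.elim
        | exact h2.elim
        | exact h3.elim
        | skip
      · rw [(h.1 x y (fun hh => hxy (by rw [hh]))).unique ⟨h1, h2⟩ ⟨h3, h4⟩]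
      · rw [(h.2.1 x y (fun hh => hxy (by rw [hh]))).unique ⟨h1, h2⟩ ⟨h3, h4⟩]
    ex := by
      rintro (x | x) (y | y) hs
      · by_cases hxy : x = y
        · subst hxy
          have h1 := (plane_counts h).2.2.1 x
          obtain ⟨⟨l, hl⟩⟩ := (Nat.card_pos_iff.mp (by rw [h1]; omega) :
            Nonempty {l : G.V₂ // G.E x l} ∧ _).1
          exact ⟨.inr l, hl, hl⟩
        · obtain ⟨l, hl⟩ := (h.1 x y hxy).exists
          exact ⟨.inr l, hl⟩
      · simp at hs
      · simp at hs
      · by_cases hxy : x = y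
        · subst hxy
          have h1 := h.2.2.2 x
          obtain ⟨⟨l, hl⟩⟩ := (Nat.card_pos_iff.mp (by rw [h1]; omega) :
            Nonempty {p : G.V₁ // G.E p x} ∧ _).1
          exact ⟨.inl l, hl, hl⟩
        · obtain ⟨l, hl⟩ := (h.2.1 x y hxy).exists
          exact ⟨.inl l, hl⟩
    N_pos := by positivity
    D_pos := by positivity
    D_le := by nlinarith
    N_le := by nlinarith
    sq_le := by nlinarith }

lemma homDensity_eq (H : BipGraph) [Fintype (H.V₁ ⊕ H.V₂)] [DecidableEq (H.V₁ ⊕ H.V₂)]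
    {G : BipGraph} {m : ℕ} (h : IsPlaneOfOrder G m) :
    homDensity H G = 2 ^ Fintype.card (H.V₁ ⊕ H.V₂) *
      dens (Hom Sum.isRight (sumRel H.E) univ (geo h)) := by
  haveI := H.finite₁
  haveI := H.finite₂
  have hc : homCount H G = cnt (Hom Sum.isRight (sumRel H.E) univ (geo h)) := by
    rw [cnt_eq_natCard]
    unfold homCount
    refine Nat.card_eq_of_bijective (fun φ => ⟨Sum.map φ.1.1 φ.1.2, ?_, ?_⟩) ⟨?_, ?_⟩
    · rintro (a | b) _ <;> rfl
    · rintro (a | a) _ (b | b) _ hab
      · exact hab.elim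
      · exact φ.2 a b hab
      · exact φ.2 b a hab
      · exact hab.elim
    · rintro ⟨⟨f, g⟩, hf⟩ ⟨⟨f', g'⟩, hf'⟩ hh
      have hh' : Sum.map f g = Sum.map f' g' := congrArg Subtype.val hh
      have h1 : f = f' := funext fun a => Sum.inl.inj (congrFun hh' (.inl a))
      have h2 : g = g' := funext fun a => Sum.inr.inj (congrFun hh' (.inr a))
      subst h1 h2
      rfl
    · rintro ⟨φ, hφ⟩
      have h1 : ∀ a : H.V₁, ∃ p : G.V₁, φ (.inl a) = .inl p := by
        intro a
        have := hφ.1 (.inl a) (mem_univ _)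
        rcases hh : φ (.inl a) with p | l
        · exact ⟨p, rfl⟩
        · rw [hh] at this
          exact absurd this (by simp [geo])
      have h2 : ∀ a : H.V₂, ∃ p : G.V₂, φ (.inr a) = .inr p := by
        intro a
        have := hφ.1 (.inr a) (mem_univ _)
        rcases hh : φ (.inr a) with p | l
        · rw [hh] at this
          exact absurd this (by simp [geo])
        · exact ⟨l, rfl⟩
      choose f hf using h1
      choose g hg using h2
      refine ⟨⟨(f, g), fun a b hab => ?_⟩, ?_⟩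
      · have := hφ.2 (.inl a) (mem_univ _) (.inr b) (mem_univ _) hab
        rw [hf, hg] at this
        exact this
      · apply Subtype.ext
        funext v
        rcases v with a | b
        · exact (hf a).symm
        · exact (hg b).symm
  unfold homDensity dens
  rw [hc, (geo h).card_X', (plane_counts h).1, (plane_counts h).2.1, ← pow_add, ← Nat.card_sum,
    Nat.card_eq_fintype_card, mul_pow]
  have hN : ((geo h).N : ℝ) = ((m ^ 2 + m + 1 : ℕ) : ℝ) := rfl
  rw [hN]
  field_simp

/-- Two-sided power bound for the bipartite density, uniform over all projective planes. -/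
lemma density_theta (H : BipGraph) : ∃ (k : ℕ) (c C : ℝ), 0 < c ∧ 0 < C ∧
    ∀ (G : BipGraph) (m : ℕ) (h : IsPlaneOfOrder G m),
      c * (geo h).x ^ k ≤ homDensity H G ∧ homDensity H G ≤ C * (geo h).x ^ k := by
  classical
  haveI := H.finite₁
  haveI := H.finite₂
  letI := Fintype.ofFinite (H.V₁ ⊕ H.V₂)
  obtain ⟨k, c, C, hc, hC, hh⟩ := theta_hom Sum.isRight _ univ rfl _ (sumRel_bip H.E)
  refine ⟨k, 2 ^ Fintype.card (H.V₁ ⊕ H.V₂) * c, 2 ^ Fintype.card (H.V₁ ⊕ H.V₂) * C,
    by positivity, by positivity, fun G m h => ?_⟩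
  rw [homDensity_eq H h, mul_assoc, mul_assoc]
  constructor
  · gcongr; exact (hh _).1
  · gcongr; exact (hh _).2

lemma density_le (H : BipGraph) (hH : ∃ a b, H.E a b) : ∃ C : ℝ, 0 < C ∧
    ∀ (G : BipGraph) (m : ℕ) (h : IsPlaneOfOrder G m), homDensity H G ≤ C * (geo h).x := by
  classical
  haveI := H.finite₁
  haveI := H.finite₂
  letI := Fintype.ofFinite (H.V₁ ⊕ H.V₂)
  obtain ⟨a, b, hab⟩ := hH
  refine ⟨2 ^ Fintype.card (H.V₁ ⊕ H.V₂), by positivity, fun G m h => ?_⟩
  rw [homDensity_eq H h]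
  gcongr
  have hab' : sumRel H.E (.inl a) (.inr b) := hab
  exact dens_le_x (mem_univ _) (mem_univ _) (sumRel_bip H.E) hab' _

lemma x_tendsto {G : ℕ → BipGraph} {m : ℕ → ℕ} (h : ∀ n, IsPlaneOfOrder (G n) (m n))
    (hm : Tendsto m atTop atTop) : Tendsto (fun n => (geo (h n)).x) atTop (𝓝 0) := by
  have h1 : Tendsto (fun n => ((m n : ℝ))⁻¹) atTop (𝓝 0) :=
    tendsto_inv_atTop_zero.comp (tendsto_natCast_atTop_atTop.comp hm)
  refine squeeze_zero (fun n => (geo (h n)).x_pos.le) (fun n => ?_) h1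
  have h2 : (1 : ℝ) < m n := by exact_mod_cast (plane_counts (h n)).2.2.2
  have h3 : (geo (h n)).x = ((m n + 1 : ℕ) : ℝ) / ((m n ^ 2 + m n + 1 : ℕ) : ℝ) := rfl
  rw [h3, inv_eq_one_div, div_le_div_iff₀ (by positivity) (by positivity)]
  push_cast
  nlinarith

lemma log_ratio {x t : ℕ → ℝ} (hx0 : ∀ n, 0 < x n) (hx : Tendsto x atTop (𝓝 0)) {k : ℕ}
    {c C : ℝ} (hc : 0 < c) (hC : 0 < C) (h : ∀ n, c * x n ^ k ≤ t n ∧ t n ≤ C * x n ^ k) :
    Tendsto (fun n => (-Real.log (t n)) / (-Real.log (x n))) atTop (𝓝 k) := by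
  have hL : Tendsto (fun n => -Real.log (x n)) atTop atTop := by
    apply tendsto_neg_atBot_atTop.comp
    apply Real.tendsto_log_nhdsGT_zero.comp
    exact tendsto_nhdsWithin_iff.mpr ⟨hx, Eventually.of_forall hx0⟩
  have hlim : ∀ a : ℝ, Tendsto (fun n => (k : ℝ) + a / (-Real.log (x n))) atTop (𝓝 k) := by
    intro a
    simpa using (tendsto_const_nhds (x := (k : ℝ))).add (hL.const_div_atTop a)
  refine tendsto_of_tendsto_of_tendsto_of_le_of_le' (hlim (-Real.log C)) (hlim (-Real.log c))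
    ?_ ?_
  · filter_upwards [hL.eventually_gt_atTop 0] with n hn
    have hxn := hx0 n
    have htn : 0 < t n := lt_of_lt_of_le (by positivity) (h n).1
    have := Real.log_le_log htn (h n).2
    rw [Real.log_mul hC.ne' (by positivity), Real.log_pow] at this
    rw [le_div_iff₀ hn, add_mul, div_mul_cancel₀ _ hn.ne']
    linarith
  · filter_upwards [hL.eventually_gt_atTop 0] with n hn
    have hxn := hx0 n
    have := Real.log_le_log (by positivity) (h n).1
    rw [Real.log_mul hc.ne' (by positivity), Real.log_pow] at this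
    rw [div_le_iff₀ hn, add_mul, div_mul_cancel₀ _ hn.ne']
    linarith

lemma ratio_tendsto {x t₁ t₂ : ℕ → ℝ} (hx0 : ∀ n, 0 < x n) (hx : Tendsto x atTop (𝓝 0))
    {k₁ k₂ : ℕ} {c₁ C₁ c₂ C₂ C : ℝ} (hc₁ : 0 < c₁) (hC₁ : 0 < C₁) (hc₂ : 0 < c₂) (hC₂ : 0 < C₂)
    (h₁ : ∀ n, c₁ * x n ^ k₁ ≤ t₁ n ∧ t₁ n ≤ C₁ * x n ^ k₁)
    (h₂ : ∀ n, c₂ * x n ^ k₂ ≤ t₂ n ∧ t₂ n ≤ C₂ * x n ^ k₂) (h₃ : ∀ n, t₂ n ≤ C * x n) :
    Tendsto (fun n => (-Real.log (t₁ n)) / (-Real.log (t₂ n))) atTop (𝓝 ((k₁ : ℝ) / k₂)) := by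
  have hk : k₂ ≠ 0 := by
    rintro rfl
    have h4 : Tendsto (fun n => C * x n) atTop (𝓝 0) := by simpa using hx.const_mul C
    obtain ⟨n, hn⟩ := (h4.eventually (gt_mem_nhds hc₂)).exists
    have := (h₂ n).1
    simp only [pow_zero, mul_one] at this
    linarith [h₃ n]
  have := (log_ratio hx0 hx hc₁ hC₁ h₁).div (log_ratio hx0 hx hc₂ hC₂ h₂)
    (by exact_mod_cast hk)
  refine this.congr' ?_
  filter_upwards [hx.eventually (gt_mem_nhds one_pos)] with n hn
  have hl : -Real.log (x n) ≠ 0 := by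
    have := Real.log_neg (hx0 n) hn
    linarith
  simp only [Pi.div_apply]
  rw [div_div_div_cancel_right₀ hl]

end Pool.Agent.MP_4388f3_co

end
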